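import Mathlib

/-!
# Linear-size spectral sparsifiers (Batson, Spielman, Srivastava)

For vectors `v i` in `ℝ^n` with `∑ v i (v i)ᵀ = 1` and every natural number `N ≥ 2` there are
nonnegative weights `s i`, at most `N ^ 2 * n` of them nonzero, such that
`l * 1 ≤ ∑ s i • v i (v i)ᵀ ≤ u * 1` with `u / l = ((N + 1) / (N - 1)) ^ 2`.
-/

namespace Pool.Agent.Zono

open Matrix Finset

variable {n : Type*} [Fintype n] [DecidableEq n]

/-- spectral decomposition of a symmetric real matrix -/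
lemma spec (M : Matrix n n ℝ) (hM : M.IsHermitian) :
    ∃ (U : Matrix n n ℝ) (y : n → ℝ), U * star U = 1 ∧ star U * U = 1 ∧
      M = U * diagonal y * star U := by
  refine ⟨hM.eigenvectorUnitary, hM.eigenvalues, ?_, ?_, ?_⟩
  · exact (Matrix.mem_unitaryGroup_iff).1 hM.eigenvectorUnitary.2
  · exact (Matrix.mem_unitaryGroup_iff').1 hM.eigenvectorUnitary.2
  · have := hM.spectral_theorem
    rw [Unitary.conjStarAlgAut_apply] at this
    exact this

section diag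

variable {U : Matrix n n ℝ} {y : n → ℝ}

lemma shift_eq (hU1 : U * star U = 1) (c : ℝ) :
    U * diagonal y * star U + c • (1 : Matrix n n ℝ) =
      U * diagonal (fun i => y i + c) * star U := by
  have h1 : (diagonal (fun i => y i + c) : Matrix n n ℝ) = diagonal y + c • 1 := by
    ext i j
    by_cases h : i = j
    · subst h; simp
    · simp [h]
  rw [h1, mul_add, add_mul, mul_smul_comm, mul_one, smul_mul_assoc, hU1]

lemma diag_mul_diag (hU2 : star U * U = 1) (f g : n → ℝ) :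
    (U * diagonal f * star U) * (U * diagonal g * star U) =
      U * diagonal (fun i => f i * g i) * star U := by
  calc (U * diagonal f * star U) * (U * diagonal g * star U)
      = U * diagonal f * (star U * U) * diagonal g * star U := by simp only [mul_assoc]
    _ = U * (diagonal f * diagonal g) * star U := by rw [hU2, mul_one]; simp only [mul_assoc]
    _ = _ := by rw [diagonal_mul_diagonal]

lemma diag_trace (hU2 : star U * U = 1) (f : n → ℝ) :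
    (U * diagonal f * star U).trace = ∑ i, f i := by
  rw [Matrix.trace_mul_cycle, hU2, one_mul, trace_diagonal]

lemma diag_inv (hU1 : U * star U = 1) (hU2 : star U * U = 1) (f : n → ℝ) (hf : ∀ i, f i ≠ 0) :
    (U * diagonal f * star U)⁻¹ = U * diagonal (fun i => (f i)⁻¹) * star U := by
  apply Matrix.inv_eq_right_inv
  rw [diag_mul_diag hU2]
  have : (fun i => f i * (f i)⁻¹) = fun _ => (1 : ℝ) := by
    funext i
    exact mul_inv_cancel₀ (hf i)
  rw [this, diagonal_one, mul_one, hU1]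

lemma diag_posDef (hU1 : U * star U = 1) (f : n → ℝ) :
    (U * diagonal f * star U).PosDef ↔ ∀ i, 0 < f i := by
  have hU : IsUnit U := by
    rw [Matrix.isUnit_iff_isUnit_det]
    exact Matrix.isUnit_det_of_right_inverse hU1
  rw [hU.posDef_star_right_conjugate_iff, posDef_diagonal_iff]

end diag

/-- the quantities of a shifted symmetric matrix in terms of eigenvalues -/
lemma exists_eig (M : Matrix n n ℝ) (hM : M.IsHermitian) :
    ∃ y : n → ℝ, (∀ c : ℝ, (M + c • (1 : Matrix n n ℝ)).PosDef ↔ ∀ i, 0 < y i + c) ∧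
      (∀ c : ℝ, (∀ i, y i + c ≠ 0) →
        ((M + c • (1 : Matrix n n ℝ))⁻¹).trace = ∑ i, (y i + c)⁻¹ ∧
        ((M + c • (1 : Matrix n n ℝ))⁻¹ * (M + c • (1 : Matrix n n ℝ))⁻¹).trace =
          ∑ i, (y i + c)⁻¹ * (y i + c)⁻¹) := by
  obtain ⟨U, y, hU1, hU2, rfl⟩ := spec M hM
  refine ⟨y, fun c => ?_, fun c hc => ?_⟩
  · rw [shift_eq hU1, diag_posDef hU1]
  · rw [shift_eq hU1, diag_inv hU1 hU2 _ hc, diag_mul_diag hU2, diag_trace hU2, diag_trace hU2]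
    exact ⟨rfl, rfl⟩

/-! ### Rank one updates -/

/-- the matrix `v vᵀ` -/
def rk (v : n → ℝ) : Matrix n n ℝ := vecMulVec v v

omit [DecidableEq n] in
lemma rk_posSemidef (v : n → ℝ) : (rk v).PosSemidef := by
  have := posSemidef_vecMulVec_self_star (R := ℝ) v
  simpa [rk] using this

omit [Fintype n] [DecidableEq n] in
lemma rk_isHermitian (v : n → ℝ) : (rk v).IsHermitian := by
  unfold Matrix.IsHermitian
  ext i j
  simp [rk, vecMulVec_apply, mul_comm]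

omit [DecidableEq n] in
lemma trace_mul_rk (X : Matrix n n ℝ) (v : n → ℝ) : (X * rk v).trace = v ⬝ᵥ (X *ᵥ v) := by
  rw [rk, mul_vecMulVec, trace_vecMulVec, dotProduct_comm]

/-- Sherman-Morrison -/
lemma rank_one_inv (M : Matrix n n ℝ) (hM : M.PosDef) (v : n → ℝ) (t : ℝ)
    (ht : 0 < 1 + t * (v ⬝ᵥ (M⁻¹ *ᵥ v))) :
    (M + t • rk v)⁻¹ = M⁻¹ - (t / (1 + t * (v ⬝ᵥ (M⁻¹ *ᵥ v)))) • rk (M⁻¹ *ᵥ v) := by
  have hdet : IsUnit M.det := (Matrix.isUnit_iff_isUnit_det M).1 hM.isUnit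
  have hMM : M * M⁻¹ = 1 := Matrix.mul_nonsing_inv M hdet
  have hsym : M⁻¹ᵀ = M⁻¹ := by
    have := hM.inv.isHermitian
    rwa [Matrix.IsHermitian, conjTranspose_eq_transpose_of_trivial] at this
  apply Matrix.inv_eq_right_inv
  set q : ℝ := v ⬝ᵥ (M⁻¹ *ᵥ v) with hq
  have h1 : M *ᵥ (M⁻¹ *ᵥ v) = v := by rw [mulVec_mulVec, hMM, one_mulVec]
  have h2 : M * rk (M⁻¹ *ᵥ v) = vecMulVec v (M⁻¹ *ᵥ v) := by
    rw [rk, mul_vecMulVec, h1]
  have h3 : rk v * M⁻¹ = vecMulVec v (M⁻¹ *ᵥ v) := by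
    rw [rk, vecMulVec_mul, ← mulVec_transpose, hsym]
  have h4 : rk v * rk (M⁻¹ *ᵥ v) = q • vecMulVec v (M⁻¹ *ᵥ v) := by
    rw [rk, rk, vecMulVec_mul_vecMulVec, ← hq]
    ext i j
    simp [vecMulVec_apply]
    ring
  rw [add_mul, mul_sub, mul_sub, hMM, mul_smul_comm, h2, smul_mul_assoc, h3, smul_mul_assoc,
    mul_smul_comm, h4]
  ext i j
  simp only [Matrix.add_apply, Matrix.sub_apply, Matrix.smul_apply, smul_eq_mul]
  field_simp
  ring

/-- rank one updates of positive definite matrices -/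
lemma rank_one (M : Matrix n n ℝ) (hM : M.PosDef) (v : n → ℝ) (t : ℝ)
    (ht : 0 < 1 + t * (v ⬝ᵥ (M⁻¹ *ᵥ v))) :
    (M + t • rk v).PosDef ∧
      ((M + t • rk v)⁻¹).trace =
        (M⁻¹).trace - t * (v ⬝ᵥ ((M⁻¹ * M⁻¹) *ᵥ v)) / (1 + t * (v ⬝ᵥ (M⁻¹ *ᵥ v))) := by
  have hsym : M⁻¹ᵀ = M⁻¹ := by
    have := hM.inv.isHermitian
    rwa [Matrix.IsHermitian, conjTranspose_eq_transpose_of_trivial] at this
  have hinv := rank_one_inv M hM v t ht
  constructor
  · rcases le_total 0 t with h0 | h0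
    · exact hM.add_posSemidef ((rk_posSemidef v).smul h0)
    · have h1 : ((M + t • rk v)⁻¹).PosDef := by
        rw [hinv, sub_eq_add_neg, ← neg_smul]
        refine hM.inv.add_posSemidef ((rk_posSemidef _).smul ?_)
        rw [neg_nonneg]
        exact div_nonpos_of_nonpos_of_nonneg h0 ht.le
      exact Matrix.posDef_inv_iff.1 h1
  · rw [hinv, trace_sub, trace_smul]
    have h2 : (rk (M⁻¹ *ᵥ v)).trace = v ⬝ᵥ ((M⁻¹ * M⁻¹) *ᵥ v) := by
      rw [rk, trace_vecMulVec, ← mulVec_mulVec, dotProduct_mulVec, ← mulVec_transpose, hsym,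
        dotProduct_comm]
    rw [h2, smul_eq_mul]
    ring

/-! ### The two barriers -/

/-- upper barrier step -/
lemma upper_step (A : Matrix n n ℝ) (u δ : ℝ) (hδ : 0 < δ)
    (hA : (u • (1 : Matrix n n ℝ) - A).PosDef) (hne : Nonempty n) :
    ((u + δ) • (1 : Matrix n n ℝ) - A).PosDef ∧
      0 < ((u • (1 : Matrix n n ℝ) - A)⁻¹).trace - (((u + δ) • (1 : Matrix n n ℝ) - A)⁻¹).trace ∧
      ((((u + δ) • (1 : Matrix n n ℝ) - A)⁻¹ * ((u + δ) • (1 : Matrix n n ℝ) - A)⁻¹).trace) * δ ≤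
        ((u • (1 : Matrix n n ℝ) - A)⁻¹).trace - (((u + δ) • (1 : Matrix n n ℝ) - A)⁻¹).trace := by
  obtain ⟨y, hy1, hy2⟩ := exists_eig (u • (1 : Matrix n n ℝ) - A) hA.isHermitian
  have h0 : ∀ i, 0 < y i := by
    have := (hy1 0).1 (by simpa using hA)
    simpa using this
  have h1 : (u + δ) • (1 : Matrix n n ℝ) - A = (u • (1 : Matrix n n ℝ) - A) + δ • 1 := by
    rw [add_smul]; abel
  have h2 : ∀ i, 0 < y i + δ := fun i => by have := h0 i; linarith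
  have e0 := (hy2 0 (fun i => by simpa using (h0 i).ne')).1
  simp only [zero_smul, add_zero] at e0
  obtain ⟨e1, e2⟩ := hy2 δ (fun i => (h2 i).ne')
  rw [h1, e0, e1, e2, ← sum_sub_distrib, sum_mul]
  refine ⟨(hy1 δ).2 h2, sum_pos (fun i _ => ?_) univ_nonempty, sum_le_sum fun i _ => ?_⟩
  · have a := h0 i
    have b := h2 i
    rw [sub_pos]
    exact inv_strictAnti₀ a (by linarith)
  · have a := h0 i
    have b := h2 i
    have h3 : (y i)⁻¹ - (y i + δ)⁻¹ = δ * ((y i)⁻¹ * (y i + δ)⁻¹) := by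
      field_simp
      ring
    rw [h3, mul_comm]
    apply mul_le_mul_of_nonneg_left _ hδ.le
    apply mul_le_mul_of_nonneg_right _ (inv_pos.2 b).le
    exact inv_anti₀ a (by linarith)

/-- lower barrier step -/
lemma lower_step (A : Matrix n n ℝ) (l δ : ℝ) (hδ : 0 < δ)
    (hA : (A - l • (1 : Matrix n n ℝ)).PosDef) (hne : Nonempty n)
    (hpot : ((A - l • (1 : Matrix n n ℝ))⁻¹).trace < 1 / δ) :
    (A - (l + δ) • (1 : Matrix n n ℝ)).PosDef ∧
      0 < ((A - (l + δ) • (1 : Matrix n n ℝ))⁻¹).trace - ((A - l • (1 : Matrix n n ℝ))⁻¹).trace ∧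
      (((A - (l + δ) • (1 : Matrix n n ℝ))⁻¹).trace - ((A - l • (1 : Matrix n n ℝ))⁻¹).trace) *
        (1 / δ + (((A - (l + δ) • (1 : Matrix n n ℝ))⁻¹).trace -
          ((A - l • (1 : Matrix n n ℝ))⁻¹).trace)) ≤
        ((A - (l + δ) • (1 : Matrix n n ℝ))⁻¹ * (A - (l + δ) • (1 : Matrix n n ℝ))⁻¹).trace := by
  obtain ⟨y, hy1, hy2⟩ := exists_eig (A - l • (1 : Matrix n n ℝ)) hA.isHermitian
  have h0 : ∀ i, 0 < y i := by
    have := (hy1 0).1 (by simpa using hA)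
    simpa using this
  have h1 : A - (l + δ) • (1 : Matrix n n ℝ) = (A - l • (1 : Matrix n n ℝ)) + (-δ) • 1 := by
    rw [add_smul, neg_smul]; abel
  have e0 := (hy2 0 (fun i => by simpa using (h0 i).ne')).1
  simp only [zero_smul, add_zero] at e0
  rw [e0] at hpot
  have h2 : ∀ i, 0 < y i + -δ := fun i => by
    have a : (y i)⁻¹ ≤ ∑ j, (y j)⁻¹ :=
      single_le_sum (f := fun j => (y j)⁻¹) (fun j _ => (inv_pos.2 (h0 j)).le) (mem_univ i)
    have b : (y i)⁻¹ < 1 / δ := lt_of_le_of_lt a hpot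
    rw [one_div] at b
    have c := (inv_lt_inv₀ (h0 i) hδ).1 b
    linarith
  obtain ⟨e1, e2⟩ := hy2 (-δ) (fun i => (h2 i).ne')
  rw [h1, e0, e1, e2, ← sum_sub_distrib]
  have h3 : ∀ i, (y i + -δ)⁻¹ - (y i)⁻¹ = δ * ((y i + -δ)⁻¹ * (y i)⁻¹) := fun i => by
    have a := (h0 i).ne'
    have b := (h2 i).ne'
    field_simp
    ring
  refine ⟨(hy1 (-δ)).2 h2, sum_pos (fun i _ => ?_) univ_nonempty, ?_⟩
  · have a := h0 i
    have b := h2 i
    rw [sub_pos]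
    exact inv_strictAnti₀ b (by linarith)
  · simp only [h3]
    rw [← mul_sum]
    set D : ℝ := ∑ i, (y i + -δ)⁻¹ * (y i)⁻¹ with hD
    set X : ℝ := ∑ i, ((y i + -δ)⁻¹ * (y i + -δ)⁻¹) * (y i)⁻¹ with hX
    have hX0 : 0 ≤ X := sum_nonneg fun i _ => by
      have a := inv_pos.2 (h0 i)
      have b := inv_pos.2 (h2 i)
      positivity
    have hCS : D ^ 2 ≤ X * ∑ i, (y i)⁻¹ := by
      have := sum_mul_sq_le_sq_mul_sq univ (fun i => (y i + -δ)⁻¹ * Real.sqrt ((y i)⁻¹))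
        (fun i => Real.sqrt ((y i)⁻¹))
      have g1 : ∑ i, ((y i + -δ)⁻¹ * Real.sqrt ((y i)⁻¹)) * Real.sqrt ((y i)⁻¹) = D := by
        rw [hD]
        refine sum_congr rfl fun i _ => ?_
        rw [mul_assoc, Real.mul_self_sqrt (inv_pos.2 (h0 i)).le]
      have g2 : ∑ i, ((y i + -δ)⁻¹ * Real.sqrt ((y i)⁻¹)) ^ 2 = X := by
        rw [hX]
        refine sum_congr rfl fun i _ => ?_
        rw [mul_pow, Real.sq_sqrt (inv_pos.2 (h0 i)).le]
        ring
      have g3 : ∑ i, (Real.sqrt ((y i)⁻¹)) ^ 2 = ∑ i, (y i)⁻¹ := by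
        refine sum_congr rfl fun i _ => ?_
        rw [Real.sq_sqrt (inv_pos.2 (h0 i)).le]
      rw [g1, g2, g3] at this
      exact this
    have h4 : ∑ i, (y i + -δ)⁻¹ * (y i + -δ)⁻¹ = D + δ * X := by
      rw [hD, hX, mul_sum, ← sum_add_distrib]
      refine sum_congr rfl fun i _ => ?_
      have a := (h0 i).ne'
      have b := (h2 i).ne'
      field_simp
      ring
    rw [h4]
    have h5 : δ * D * (1 / δ + δ * D) = D + δ * (δ * D ^ 2) := by
      field_simp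
    rw [h5]
    have h6 : δ * D ^ 2 ≤ X := by
      have h7 : δ * ∑ i, (y i)⁻¹ ≤ 1 := by
        have := mul_le_mul_of_nonneg_left hpot.le hδ.le
        rwa [mul_one_div_cancel hδ.ne'] at this
      calc δ * D ^ 2 ≤ δ * (X * ∑ i, (y i)⁻¹) := mul_le_mul_of_nonneg_left hCS hδ.le
        _ = X * (δ * ∑ i, (y i)⁻¹) := by ring
        _ ≤ X * 1 := mul_le_mul_of_nonneg_left h7 hX0
        _ = X := mul_one X
    have := mul_le_mul_of_nonneg_left h6 hδ.le
    linarith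

omit [DecidableEq n] in
lemma sum_quad {ι : Type*} [Fintype ι] [DecidableEq n] (v : ι → n → ℝ)
    (hv : ∑ i, rk (v i) = 1) (X : Matrix n n ℝ) :
    ∑ i, v i ⬝ᵥ (X *ᵥ v i) = X.trace := by
  have : ∑ i, (X * rk (v i)).trace = X.trace := by
    rw [← trace_sum, ← mul_sum, hv, mul_one]
  rw [← this]
  exact sum_congr rfl fun i _ => (trace_mul_rk X (v i)).symm

/-- one step of the two-barrier argument -/
lemma step {ι : Type*} [Fintype ι] [Nonempty n] (v : ι → n → ℝ) (hv : ∑ i, rk (v i) = 1)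
    (A : Matrix n n ℝ) (u l δU δL εU εL : ℝ) (hδU : 0 < δU) (hδL : 0 < δL)
    (hU : (u • (1 : Matrix n n ℝ) - A).PosDef) (hL : (A - l • (1 : Matrix n n ℝ)).PosDef)
    (pU : ((u • (1 : Matrix n n ℝ) - A)⁻¹).trace ≤ εU)
    (pL : ((A - l • (1 : Matrix n n ℝ))⁻¹).trace ≤ εL)
    (hεL : εL < 1 / δL) (hcond : 1 / δU + εU ≤ 1 / δL - εL) :
    ∃ (i : ι) (t : ℝ), 0 < t ∧
      ((u + δU) • (1 : Matrix n n ℝ) - (A + t • rk (v i))).PosDef ∧
      ((A + t • rk (v i)) - (l + δL) • (1 : Matrix n n ℝ)).PosDef ∧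
      (((u + δU) • (1 : Matrix n n ℝ) - (A + t • rk (v i)))⁻¹).trace ≤ εU ∧
      (((A + t • rk (v i)) - (l + δL) • (1 : Matrix n n ℝ))⁻¹).trace ≤ εL := by
  obtain ⟨hM, hDU, hU2⟩ := upper_step A u δU hδU hU inferInstance
  obtain ⟨hN, hDL, hL2⟩ := lower_step A l δL hδL hL inferInstance (lt_of_le_of_lt pL hεL)
  set M : Matrix n n ℝ := (u + δU) • (1 : Matrix n n ℝ) - A with hMdef
  set N : Matrix n n ℝ := A - (l + δL) • (1 : Matrix n n ℝ) with hNdef
  set DU : ℝ := ((u • (1 : Matrix n n ℝ) - A)⁻¹).trace - (M⁻¹).trace with hDUdef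
  set DL : ℝ := (N⁻¹).trace - ((A - l • (1 : Matrix n n ℝ))⁻¹).trace with hDLdef
  -- quadratic forms
  have hq : ∀ i, 0 ≤ v i ⬝ᵥ (M⁻¹ *ᵥ v i) := fun i => by
    have := hM.inv.posSemidef.dotProduct_mulVec_nonneg (v i)
    simpa using this
  have hq' : ∀ i, 0 ≤ v i ⬝ᵥ (N⁻¹ *ᵥ v i) := fun i => by
    have := hN.inv.posSemidef.dotProduct_mulVec_nonneg (v i)
    simpa using this
  have hr : ∀ i, 0 ≤ v i ⬝ᵥ ((M⁻¹ * M⁻¹) *ᵥ v i) := fun i => by
    have h1 : (M⁻¹ ^ 2).PosSemidef := hM.inv.posSemidef.pow 2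
    rw [pow_two] at h1
    have := h1.dotProduct_mulVec_nonneg (v i)
    simpa using this
  -- the sums
  have hsU : ∑ i, (v i ⬝ᵥ ((M⁻¹ * M⁻¹) *ᵥ v i) / DU + v i ⬝ᵥ (M⁻¹ *ᵥ v i)) < 1 / δU + εU := by
    rw [sum_add_distrib, ← sum_div, sum_quad v hv, sum_quad v hv]
    have h1 : (M⁻¹ * M⁻¹).trace / DU ≤ 1 / δU := by
      rw [div_le_div_iff₀ hDU hδU, one_mul]
      exact hU2
    have h2 : (M⁻¹).trace < εU := by linarith
    linarith
  have hsL : 1 / δL - εL ≤ ∑ i, (v i ⬝ᵥ ((N⁻¹ * N⁻¹) *ᵥ v i) / DL - v i ⬝ᵥ (N⁻¹ *ᵥ v i)) := by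
    rw [sum_sub_distrib, ← sum_div, sum_quad v hv, sum_quad v hv]
    have h1 : 1 / δL + DL ≤ (N⁻¹ * N⁻¹).trace / DL := by
      rw [le_div_iff₀ hDL, mul_comm]
      exact hL2
    linarith
  obtain ⟨i, -, hi⟩ := exists_lt_of_sum_lt (lt_of_lt_of_le hsU (hcond.trans hsL))
  have hq_i := hq i
  have hq'_i := hq' i
  have hr_i := hr i
  set q : ℝ := v i ⬝ᵥ (M⁻¹ *ᵥ v i) with hqdef
  set q' : ℝ := v i ⬝ᵥ (N⁻¹ *ᵥ v i) with hq'def
  set r : ℝ := v i ⬝ᵥ ((M⁻¹ * M⁻¹) *ᵥ v i) with hrdef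
  set r' : ℝ := v i ⬝ᵥ ((N⁻¹ * N⁻¹) *ᵥ v i) with hr'def
  set Li : ℝ := r' / DL - q' with hLi
  have hUi : 0 ≤ r / DU + q := add_nonneg (div_nonneg hr_i hDU.le) hq_i
  have hLpos : 0 < Li := lt_of_le_of_lt hUi hi
  have hqL : q < Li := lt_of_le_of_lt (le_add_of_nonneg_left (div_nonneg hr_i hDU.le)) hi
  have ht : 0 < Li⁻¹ := inv_pos.2 hLpos
  have h1 : 0 < 1 + (-Li⁻¹) * q := by
    have : Li⁻¹ * q < Li⁻¹ * Li := mul_lt_mul_of_pos_left hqL ht
    rw [inv_mul_cancel₀ hLpos.ne'] at this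
    linarith
  have h2 : 0 < 1 + Li⁻¹ * q' := by positivity
  obtain ⟨a1, a2⟩ := rank_one M hM (v i) (-Li⁻¹) h1
  obtain ⟨b1, b2⟩ := rank_one N hN (v i) Li⁻¹ h2
  have e1 : (u + δU) • (1 : Matrix n n ℝ) - (A + Li⁻¹ • rk (v i)) = M + (-Li⁻¹) • rk (v i) := by
    rw [hMdef, neg_smul]; abel
  have e2 : (A + Li⁻¹ • rk (v i)) - (l + δL) • (1 : Matrix n n ℝ) = N + Li⁻¹ • rk (v i) := by
    rw [hNdef]; abel
  refine ⟨i, Li⁻¹, ht, ?_, ?_, ?_, ?_⟩
  · rw [e1]; exact a1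
  · rw [e2]; exact b1
  · rw [e1, a2]
    have h3 : -(-Li⁻¹ * r / (1 + -Li⁻¹ * q)) ≤ DU := by
      rw [← neg_div, div_le_iff₀ h1]
      have h4 : Li⁻¹ * (r / DU + q) ≤ Li⁻¹ * Li := mul_le_mul_of_nonneg_left hi.le ht.le
      rw [inv_mul_cancel₀ hLpos.ne'] at h4
      have h5 : DU * (Li⁻¹ * (r / DU + q)) ≤ DU * 1 := mul_le_mul_of_nonneg_left h4 hDU.le
      have h6 : DU * (Li⁻¹ * (r / DU + q)) = Li⁻¹ * r + DU * (Li⁻¹ * q) := by
        field_simp
      rw [h6] at h5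
      linarith
    linarith
  · rw [e2, b2]
    have h3 : DL ≤ Li⁻¹ * r' / (1 + Li⁻¹ * q') := by
      rw [le_div_iff₀ h2]
      have h4 : DL * (Li + q') = r' := by
        rw [hLi]
        field_simp
        ring
      have h5 : Li⁻¹ * r' = DL * (1 + Li⁻¹ * q') := by
        rw [← h4]
        field_simp
      rw [h5]
    linarith

/-- iteration of the two-barrier step -/
lemma iterate {ι : Type*} [Fintype ι] [Nonempty n] (v : ι → n → ℝ) (hv : ∑ i, rk (v i) = 1)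
    (u₀ l₀ δU δL εU εL : ℝ) (hδU : 0 < δU) (hδL : 0 < δL)
    (hu₀ : 0 < u₀) (hl₀ : 0 < l₀) (hεU : (Fintype.card n : ℝ) / u₀ ≤ εU)
    (hεL' : (Fintype.card n : ℝ) / l₀ ≤ εL)
    (hεL : εL < 1 / δL) (hcond : 1 / δU + εU ≤ 1 / δL - εL) (k : ℕ) :
    ∃ s : ι → ℝ, (∀ i, 0 ≤ s i) ∧ (∃ T : Finset ι, T.card ≤ k ∧ ∀ i ∉ T, s i = 0) ∧
      ((u₀ + k * δU) • (1 : Matrix n n ℝ) - ∑ i, s i • rk (v i)).PosDef ∧
      ((∑ i, s i • rk (v i)) - (-l₀ + k * δL) • (1 : Matrix n n ℝ)).PosDef ∧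
      (((u₀ + k * δU) • (1 : Matrix n n ℝ) - ∑ i, s i • rk (v i))⁻¹).trace ≤ εU ∧
      (((∑ i, s i • rk (v i)) - (-l₀ + k * δL) • (1 : Matrix n n ℝ))⁻¹).trace ≤ εL := by
  classical
  induction k with
  | zero =>
    have hinv : ∀ c : ℝ, 0 < c → (c • (1 : Matrix n n ℝ))⁻¹ = c⁻¹ • 1 := fun c hc => by
      apply Matrix.inv_eq_right_inv
      rw [smul_mul_smul_comm, mul_inv_cancel₀ hc.ne', one_smul, one_mul]
    refine ⟨fun _ => 0, fun _ => le_rfl, ⟨∅, by simp, fun _ _ => rfl⟩, ?_, ?_, ?_, ?_⟩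
    · simpa using PosDef.one.smul hu₀
    · simpa using PosDef.one.smul hl₀
    · simp only [CharP.cast_eq_zero, zero_mul, add_zero, zero_smul, sum_const_zero, sub_zero]
      rw [hinv _ hu₀, trace_smul, trace_one, smul_eq_mul]
      rwa [div_eq_inv_mul] at hεU
    · simp only [CharP.cast_eq_zero, zero_mul, add_zero, zero_smul, sum_const_zero, zero_sub,
        neg_smul, neg_neg]
      rw [hinv _ hl₀, trace_smul, trace_one, smul_eq_mul]
      rwa [div_eq_inv_mul] at hεL'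
  | succ k ih =>
    obtain ⟨s, hs, ⟨T, hT1, hT2⟩, h1, h2, h3, h4⟩ := ih
    obtain ⟨i, t, ht, g1, g2, g3, g4⟩ :=
      step v hv _ _ _ δU δL εU εL hδU hδL h1 h2 h3 h4 hεL hcond
    have e1 : ∑ j, (s + Pi.single i t : ι → ℝ) j • rk (v j) =
        (∑ j, s j • rk (v j)) + t • rk (v i) := by
      simp only [Pi.add_apply, add_smul, sum_add_distrib]
      congr 1
      rw [Finset.sum_eq_single i]
      · simp
      · intro j _ hj
        simp [hj]
      · simp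
    have e2 : u₀ + ((k + 1 : ℕ) : ℝ) * δU = u₀ + k * δU + δU := by push_cast; ring
    have e3 : -l₀ + ((k + 1 : ℕ) : ℝ) * δL = -l₀ + k * δL + δL := by push_cast; ring
    refine ⟨s + Pi.single i t, fun j => ?_, ⟨insert i T, ?_, fun j hj => ?_⟩, ?_, ?_, ?_, ?_⟩
    · by_cases h : j = i
      · subst h
        simpa using add_nonneg (hs j) ht.le
      · simpa [h] using hs j
    · exact (card_insert_le _ _).trans (by omega)
    · rw [mem_insert, not_or] at hj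
      simp [hj.1, hT2 j hj.2]
    · rw [e1, e2]; exact g1
    · rw [e1, e3]; exact g2
    · rw [e1, e2]; exact g3
    · rw [e1, e3]; exact g4

/-- The theorem of Batson, Spielman and Srivastava. -/
theorem bss {ι : Type*} [Fintype ι] (v : ι → n → ℝ) (hv : ∑ i, rk (v i) = 1)
    (N : ℕ) (hN : 2 ≤ N) :
    ∃ s : ι → ℝ, (∀ i, 0 ≤ s i) ∧
      (∃ T : Finset ι, T.card ≤ N ^ 2 * Fintype.card n ∧ ∀ i ∉ T, s i = 0) ∧
      ∀ y : n → ℝ, ∑ i, s i * (v i ⬝ᵥ y) ^ 2 ≤ y ⬝ᵥ y ∧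
        ((N : ℝ) - 1) ^ 2 * (y ⬝ᵥ y) ≤ ((N : ℝ) + 1) ^ 2 * ∑ i, s i * (v i ⬝ᵥ y) ^ 2 := by
  rcases isEmpty_or_nonempty n with hn | hn
  · refine ⟨fun _ => 0, fun _ => le_rfl, ⟨∅, by simp, fun _ _ => rfl⟩, fun y => ?_⟩
    have : y = 0 := Subsingleton.elim _ _
    subst this
    simp
  have hc : (0 : ℝ) < Fintype.card n := by exact_mod_cast Fintype.card_pos
  have hN' : (2 : ℝ) ≤ N := by exact_mod_cast hN
  set c : ℝ := ((Fintype.card n : ℕ) : ℝ) with hcdef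
  have hN1 : (0 : ℝ) < N - 1 := by linarith
  have hN0 : (0 : ℝ) < N := by linarith
  obtain ⟨s, hs, ⟨T, hT1, hT2⟩, h1, h2, -, -⟩ := iterate v hv
    (c * N * (N + 1) / (N - 1)) (c * N) ((N + 1) / (N - 1)) 1 ((N - 1) / (N * (N + 1))) (1 / N)
    (by positivity) one_pos (by positivity) (by positivity)
    (by rw [← hcdef]; apply le_of_eq; field_simp) (by rw [← hcdef]; apply le_of_eq; field_simp)
    (by rw [div_lt_div_iff₀ hN0 one_pos]; linarith)
    (by apply le_of_eq; field_simp) (N ^ 2 * Fintype.card n)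
  have hu : c * N * (N + 1) / (N - 1) + ((N ^ 2 * Fintype.card n : ℕ) : ℝ) * ((N + 1) / (N - 1)) =
      c * N * (N + 1) ^ 2 / (N - 1) := by
    push_cast
    rw [← hcdef]
    field_simp
    ring
  have hl : -(c * N) + ((N ^ 2 * Fintype.card n : ℕ) : ℝ) * 1 = c * N * (N - 1) := by
    push_cast
    rw [← hcdef]
    ring
  rw [hu] at h1
  rw [hl] at h2
  set u : ℝ := c * N * (N + 1) ^ 2 / (N - 1) with hudef
  have hupos : 0 < u := by positivity
  have hquad : ∀ y : n → ℝ, y ⬝ᵥ ((∑ i, s i • rk (v i)) *ᵥ y) = ∑ i, s i * (v i ⬝ᵥ y) ^ 2 := by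
    intro y
    rw [sum_mulVec, dotProduct_sum]
    refine sum_congr rfl fun i _ => ?_
    rw [smul_mulVec, dotProduct_smul, rk, vecMulVec_mulVec, smul_eq_mul]
    simp only [op_smul_eq_smul, dotProduct_smul, smul_eq_mul]
    rw [dotProduct_comm y (v i)]
    ring
  refine ⟨fun i => s i / u, fun i => div_nonneg (hs i) hupos.le,
    ⟨T, hT1, fun i hi => by show s i / u = 0; rw [hT2 i hi, zero_div]⟩, fun y => ?_⟩
  have e : ∑ i, s i / u * (v i ⬝ᵥ y) ^ 2 = (∑ i, s i * (v i ⬝ᵥ y) ^ 2) / u := by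
    rw [sum_div]
    exact sum_congr rfl fun i _ => by ring
  rw [e]
  have g1 := h1.posSemidef.dotProduct_mulVec_nonneg y
  have g2 := h2.posSemidef.dotProduct_mulVec_nonneg y
  simp only [star_trivial, sub_mulVec, dotProduct_sub, smul_mulVec, one_mulVec, dotProduct_smul,
    smul_eq_mul, hquad] at g1 g2
  constructor
  · rw [div_le_iff₀ hupos]
    linarith
  · rw [← mul_div_assoc, le_div_iff₀ hupos]
    have h5 : c * N * (N - 1) * (y ⬝ᵥ y) ≤ ∑ i, s i * (v i ⬝ᵥ y) ^ 2 := by linarith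
    have h6 : ((N : ℝ) - 1) ^ 2 * (y ⬝ᵥ y) * u =
        ((N : ℝ) + 1) ^ 2 * (c * N * (N - 1) * (y ⬝ᵥ y)) := by
      rw [hudef]
      field_simp
    rw [h6]
    exact mul_le_mul_of_nonneg_left h5 (by positivity)

end Pool.Agent.Zono
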