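import Pool.Agent.Zono.BSS

/-!
# Linear-size sparsifiers of arbitrary sums of squares of linear forms
-/

namespace Pool.Agent.Zono

open Matrix Finset

/-- For every real matrix `V` with `D` columns there are nonnegative weights, at most `N ^ 2 * D` of
them nonzero, such that the weighted sum of squares of the coordinates of `V x` approximates the
sum of squares up to the factor `((N + 1) / (N - 1)) ^ 2`. -/
theorem bss_general {ι : Type*} [Fintype ι] {D : ℕ} (V : Matrix ι (Fin D) ℝ)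
    (N : ℕ) (hN : 2 ≤ N) :
    ∃ s : ι → ℝ, (∀ i, 0 ≤ s i) ∧
      (∃ T : Finset ι, T.card ≤ N ^ 2 * D ∧ ∀ i ∉ T, s i = 0) ∧
      ∀ x : Fin D → ℝ, ∑ i, s i * ((V *ᵥ x) i) ^ 2 ≤ ∑ i, ((V *ᵥ x) i) ^ 2 ∧
        ((N : ℝ) - 1) ^ 2 * ∑ i, ((V *ᵥ x) i) ^ 2 ≤
          ((N : ℝ) + 1) ^ 2 * ∑ i, s i * ((V *ᵥ x) i) ^ 2 := by
  classical
  let F : (Fin D → ℝ) →ₗ[ℝ] EuclideanSpace ℝ ι :=
    (WithLp.linearEquiv 2 ℝ (ι → ℝ)).symm.toLinearMap ∘ₗ V.mulVecLin
  let W : Submodule ℝ (EuclideanSpace ℝ ι) := LinearMap.range F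
  let b := stdOrthonormalBasis ℝ W
  have hdim : Module.finrank ℝ W ≤ D := by
    have := LinearMap.finrank_range_le F
    simpa using this
  let v : ι → Fin (Module.finrank ℝ W) → ℝ := fun i k => ((b k : W) : EuclideanSpace ℝ ι) i
  have hv : ∑ i, rk (v i) = 1 := by
    ext k l
    rw [Matrix.sum_apply]
    simp only [rk, vecMulVec_apply]
    have h1 : inner ℝ (b l) (b k) = if l = k then (1 : ℝ) else 0 :=
      b.inner_eq_ite l k
    rw [Submodule.coe_inner, PiLp.inner_apply] at h1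
    simp only [RCLike.inner_apply, conj_trivial] at h1
    rw [Matrix.one_apply]
    have h2 : (if k = l then (1 : ℝ) else 0) = if l = k then (1 : ℝ) else 0 := by
      simp only [eq_comm]
    rw [h2, ← h1]
  obtain ⟨s, hs, ⟨T, hT1, hT2⟩, h⟩ := bss v hv N hN
  refine ⟨s, hs, ⟨T, hT1.trans ?_, hT2⟩, fun x => ?_⟩
  · rw [Fintype.card_fin]
    exact Nat.mul_le_mul_left _ hdim
  · let w : W := ⟨F x, ⟨x, rfl⟩⟩
    let y : Fin (Module.finrank ℝ W) → ℝ := fun k => b.repr w k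
    have hw : ∀ i, v i ⬝ᵥ y = (V *ᵥ x) i := by
      intro i
      have h1 := b.sum_repr w
      have h2 : ((∑ k, b.repr w k • b k : W) : EuclideanSpace ℝ ι) i =
          (w : EuclideanSpace ℝ ι) i := by rw [h1]
      have h3 : ((w : EuclideanSpace ℝ ι)) i = (V *ᵥ x) i := rfl
      rw [h3] at h2
      rw [← h2]
      simp only [AddSubmonoidClass.coe_finsetSum, SetLike.val_smul]
      rw [WithLp.ofLp_sum, Finset.sum_apply]
      refine sum_congr rfl fun k _ => ?_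
      rw [PiLp.smul_apply, smul_eq_mul]
      exact mul_comm _ _
    have hy : y ⬝ᵥ y = ∑ i, ((V *ᵥ x) i) ^ 2 := by
      have h1 : ‖b.repr w‖ = ‖w‖ := b.repr.norm_map w
      have h2 : ‖b.repr w‖ ^ 2 = ∑ k, y k ^ 2 := by
        rw [EuclideanSpace.norm_sq_eq]
        exact sum_congr rfl fun k _ => by rw [Real.norm_eq_abs, sq_abs]
      have h3 : ‖w‖ ^ 2 = ∑ i, ((V *ᵥ x) i) ^ 2 := by
        rw [show ‖w‖ = ‖(w : EuclideanSpace ℝ ι)‖ from rfl, EuclideanSpace.norm_sq_eq]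
        exact sum_congr rfl fun k _ => by rw [Real.norm_eq_abs, sq_abs]; rfl
      have h4 : y ⬝ᵥ y = ∑ k, y k ^ 2 := sum_congr rfl fun k _ => (pow_two _).symm
      rw [h4, ← h2, h1, h3]
    have h5 := h y
    rw [hy] at h5
    have h6 : ∑ i, s i * (v i ⬝ᵥ y) ^ 2 = ∑ i, s i * ((V *ᵥ x) i) ^ 2 :=
      sum_congr rfl fun i _ => by rw [hw i]
    rw [h6] at h5
    exact h5

end Pool.Agent.Zono
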