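import Pool.Agent.Zono.General

/-!
# Conformal decompositions for totally unimodular matrices

If `B` is totally unimodular, then for every real vector `x` the vector of absolute values of the
coordinates of `B x` is a sum of nonnegative multiples of such vectors whose entries are `0` or `1`.
-/

namespace Pool.Agent.Zono

open Matrix Finset

/-- a matrix with independent rows has an invertible submatrix that uses all rows -/
lemma choose_cols {κ : Type*} [Fintype κ] [DecidableEq κ] {D : ℕ} (P : Matrix κ (Fin D) ℝ)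
    (hP : LinearIndependent ℝ P.row) : ∃ g : κ → Fin D, IsUnit (P.submatrix id g) := by
  have h1 : Module.finrank ℝ (Submodule.span ℝ (Set.range P.col)) = Fintype.card κ := by
    rw [← rank_eq_finrank_span_cols, hP.rank_matrix]
  have h2 : Submodule.span ℝ (Set.range P.col) = ⊤ := by
    apply Submodule.eq_top_of_finrank_eq
    rw [h1, Module.finrank_fintype_fun_eq_card]
  obtain ⟨κ', a, ha, hsp, hli⟩ := exists_linearIndependent' ℝ P.col
  have : Fintype κ' := Fintype.ofInjective a ha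
  have hb : ⊤ ≤ Submodule.span ℝ (Set.range (P.col ∘ a)) := by rw [hsp, h2]
  let b := Module.Basis.mk hli hb
  have hc : Fintype.card κ' = Fintype.card κ := by
    rw [← Module.finrank_eq_card_basis b, Module.finrank_fintype_fun_eq_card]
  obtain ⟨e⟩ := Fintype.card_eq.1 hc
  refine ⟨a ∘ e.symm, ?_⟩
  rw [← linearIndependent_cols_iff_isUnit]
  exact hli.comp e.symm e.symm.injective

/-- the inverse of an invertible submatrix of a totally unimodular matrix is integral -/
lemma inv_int {ι : Type*} {κ : Type*} [Fintype κ] [DecidableEq κ] {D : ℕ}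
    (B : Matrix ι (Fin D) ℝ) (hB : B.IsTotallyUnimodular) (f : κ → ι) (g : κ → Fin D)
    (hu : IsUnit (B.submatrix f g)) (s t : κ) : ∃ z : ℤ, (B.submatrix f g)⁻¹ s t = z := by
  classical
  have hent : ∀ i j, ∃ z : ℤ, B i j = z := by
    intro i j
    obtain ⟨σ, hσ⟩ := hB.apply i j
    refine ⟨(σ : ℤ), ?_⟩
    rw [← hσ]
    rcases σ <;> simp
  choose b hb using hent
  let M0 : Matrix κ κ ℤ := Matrix.of fun s t => b (f s) (g t)
  have hM : B.submatrix f g = M0.map (Int.castRingHom ℝ) := by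
    ext s t
    simp [M0, hb]
  have hdet : (B.submatrix f g).det = 1 ∨ (B.submatrix f g).det = -1 := by
    obtain ⟨σ, hσ⟩ := (isTotallyUnimodular_iff_fintype B).1 hB κ f g
    have h0 : (B.submatrix f g).det ≠ 0 := by
      rw [Matrix.isUnit_iff_isUnit_det] at hu
      exact hu.ne_zero
    rw [← hσ] at h0 ⊢
    rcases σ <;> simp_all
  have hadj : ∃ z : ℤ, (B.submatrix f g).adjugate s t = z := by
    refine ⟨M0.adjugate s t, ?_⟩
    rw [hM]
    have := RingHom.map_adjugate (Int.castRingHom ℝ) M0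
    rw [RingHom.mapMatrix_apply, RingHom.mapMatrix_apply] at this
    rw [← this]
    simp
  obtain ⟨z, hz⟩ := hadj
  rw [Matrix.inv_def, Matrix.smul_apply, hz, Ring.inverse_eq_inv']
  rcases hdet with h | h
  · exact ⟨z, by rw [h]; simp⟩
  · exact ⟨-z, by rw [h]; simp⟩

lemma row_span_dot {ι κ : Type*} {D : ℕ} (B : Matrix ι (Fin D) ℝ) (a : κ → ι)
    (x : Fin D → ℝ) (hx : ∀ s, (B *ᵥ x) (a s) = 0) (r : Fin D → ℝ)
    (hr : r ∈ Submodule.span ℝ (Set.range fun s => B.row (a s))) : r ⬝ᵥ x = 0 := by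
  induction hr using Submodule.span_induction with
  | mem y hy =>
    obtain ⟨s, rfl⟩ := hy
    exact hx s
  | zero => simp
  | add y z _ _ hy hz => rw [add_dotProduct, hy, hz, add_zero]
  | smul c y _ hy => rw [smul_dotProduct, hy, smul_zero]

/-- In the column space of a totally unimodular matrix, the entries of a vector of minimal support
are integral multiples of each of its nonzero entries. -/
lemma elementary {ι : Type} [Fintype ι] {D : ℕ} (B : Matrix ι (Fin D) ℝ)
    (hB : B.IsTotallyUnimodular) (x₀ : Fin D → ℝ)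
    (hmin : ∀ x, (∀ i, (B *ᵥ x₀) i = 0 → (B *ᵥ x) i = 0) →
      (∃ i, (B *ᵥ x₀) i ≠ 0 ∧ (B *ᵥ x) i = 0) → B *ᵥ x = 0)
    (i i₀ : ι) (hi₀ : (B *ᵥ x₀) i₀ ≠ 0) :
    ∃ z : ℤ, (B *ᵥ x₀) i = (B *ᵥ x₀) i₀ * z := by
  classical
  let Z := {z : ι // (B *ᵥ x₀) z = 0}
  obtain ⟨κ, a, ha, hsp, hli⟩ := exists_linearIndependent' ℝ (fun z : Z => B.row z)
  have : Fintype κ := Fintype.ofInjective a ha
  let f : Option κ → ι := fun o => o.elim i₀ (fun s => (a s).1)
  have hR : LinearIndependent ℝ (B.submatrix f id).row := by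
    rw [linearIndependent_option]
    refine ⟨hli, fun hmem => ?_⟩
    have h1 := row_span_dot B (fun s => (a s).1) x₀ (fun s => (a s).2) _ hmem
    exact hi₀ h1
  obtain ⟨g, hg⟩ := choose_cols _ hR
  rw [submatrix_submatrix] at hg
  simp only [Function.comp_id, Function.id_comp] at hg
  set M := B.submatrix f g with hM
  let y : Option κ → ℝ := M⁻¹ *ᵥ (Pi.single none ((B *ᵥ x₀) i₀))
  have hMy : M *ᵥ y = Pi.single none ((B *ᵥ x₀) i₀) := by
    have hdet : IsUnit M.det := (Matrix.isUnit_iff_isUnit_det M).1 hg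
    simp only [y]
    rw [mulVec_mulVec, Matrix.mul_nonsing_inv M hdet, one_mulVec]
  let x' : Fin D → ℝ := ∑ s, Pi.single (g s) (y s)
  have hx' : ∀ r, (B *ᵥ x') r = ∑ s, B r (g s) * y s := by
    intro r
    simp only [x', mulVec_sum, Finset.sum_apply]
    refine sum_congr rfl fun s _ => ?_
    rw [mulVec_single]
    simp
  have hx'f : ∀ o, (B *ᵥ x') (f o) = (Pi.single none ((B *ᵥ x₀) i₀) : Option κ → ℝ) o := by
    intro o
    rw [hx', ← hMy]
    rfl
  have hx'Z : ∀ z, (B *ᵥ x₀) z = 0 → (B *ᵥ x') z = 0 := by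
    intro z hz
    have h1 : B.row z ∈ Submodule.span ℝ (Set.range fun s => B.row (a s).1) := by
      have : B.row z ∈ Submodule.span ℝ (Set.range fun z : Z => B.row z) :=
        Submodule.subset_span ⟨⟨z, hz⟩, rfl⟩
      rw [← hsp] at this
      exact this
    exact row_span_dot B (fun s => (a s).1) x' (fun s => by
      have h2 := hx'f (some s)
      rw [Pi.single_eq_of_ne (Option.some_ne_none s)] at h2
      exact h2) _ h1
  have h0 : B *ᵥ (x' - x₀) = 0 := by
    refine hmin _ (fun z hz => ?_) ⟨i₀, hi₀, ?_⟩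
    · rw [mulVec_sub, Pi.sub_apply, hx'Z z hz, hz, sub_zero]
    · have := hx'f none
      rw [Pi.single_eq_same] at this
      rw [mulVec_sub, Pi.sub_apply]
      have e : f none = i₀ := rfl
      rw [e] at this
      rw [this, sub_self]
  have h1 : (B *ᵥ x₀) i = ∑ s, B i (g s) * y s := by
    rw [← hx', ← sub_eq_zero]
    have := congrFun h0 i
    rw [mulVec_sub, Pi.sub_apply] at this
    have h2 : (B *ᵥ x₀) i - (B *ᵥ x') i = -((B *ᵥ x') i - (B *ᵥ x₀) i) := by ring
    rw [h2, this]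
    simp
  have h2 : ∀ s, ∃ z : ℤ, B i (g s) * y s = (B *ᵥ x₀) i₀ * z := by
    intro s
    obtain ⟨z1, hz1⟩ := inv_int B hB f g hg s none
    obtain ⟨σ, hσ⟩ := hB.apply i (g s)
    have hy : y s = z1 * (B *ᵥ x₀) i₀ := by
      simp only [y]
      rw [mulVec_single]
      simp only [MulOpposite.smul_eq_mul_unop, Pi.smul_apply, MulOpposite.unop_op]
      rw [← hz1]
      rfl
    refine ⟨(σ : ℤ) * z1, ?_⟩
    rw [hy, ← hσ]
    push_cast
    ring
  choose z hz using h2
  refine ⟨∑ s, z s, ?_⟩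
  rw [h1, Int.cast_sum, mul_sum]
  exact sum_congr rfl fun s _ => hz s

/-- a number all of whose ratios are integral both ways -/
lemma abs_eq_of_int {a b : ℝ} (ha : a ≠ 0) (hb : b ≠ 0) (h1 : ∃ z : ℤ, a = b * z)
    (h2 : ∃ z : ℤ, b = a * z) : |a| = |b| := by
  have key : ∀ {a b : ℝ}, a ≠ 0 → (∃ z : ℤ, a = b * z) → |b| ≤ |a| := by
    rintro a b ha ⟨z, rfl⟩
    have hz : z ≠ 0 := by
      rintro rfl
      simp at ha
    have h1 : (1 : ℝ) ≤ |(z : ℝ)| := by
      rw [← Int.cast_abs]
      exact_mod_cast Int.one_le_abs hz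
    rw [abs_mul]
    exact le_mul_of_one_le_right (abs_nonneg b) h1
  exact le_antisymm (key hb h2) (key ha h1)

/-- the vectors of absolute values with all entries `0` or `c` -/
def Cuts {ι : Type} {D : ℕ} (B : Matrix ι (Fin D) ℝ) : Set (ι → ℝ) :=
  {a | ∃ c : ℝ, 0 ≤ c ∧ ∃ z : Fin D → ℝ, (∀ i, |(B *ᵥ z) i| = 0 ∨ |(B *ᵥ z) i| = 1) ∧
    a = fun i => c * |(B *ᵥ z) i|}

/-- conformal decomposition into vectors with entries `0` and `± c` -/
theorem conformal {ι : Type} [Fintype ι] {D : ℕ} (B : Matrix ι (Fin D) ℝ)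
    (hB : B.IsTotallyUnimodular) :
    ∀ (k : ℕ) (x : Fin D → ℝ), (univ.filter fun i => (B *ᵥ x) i ≠ 0).card ≤ k →
      (fun i => |(B *ᵥ x) i|) ∈ AddSubmonoid.closure (Cuts B) := by
  classical
  intro k
  induction k with
  | zero =>
    intro x hx
    have h0 : (fun i => |(B *ᵥ x) i|) = 0 := by
      funext i
      by_contra h
      have : i ∈ univ.filter fun i => (B *ᵥ x) i ≠ 0 := by
        rw [mem_filter]
        refine ⟨mem_univ i, fun h' => h ?_⟩
        simp [h']
      rw [card_eq_zero.1 (Nat.le_zero.1 hx)] at this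
      simp at this
    rw [h0]
    exact zero_mem _
  | succ k ih =>
    intro x hx
    by_cases h0 : B *ᵥ x = 0
    · have h1 : (fun i => |(B *ᵥ x) i|) = 0 := by
        funext i
        simp [h0]
      rw [h1]
      exact zero_mem _
    -- candidates: nonzero vectors conformal to `B x`
    let P : (Fin D → ℝ) → Prop := fun z => B *ᵥ z ≠ 0 ∧
      ∀ i, (B *ᵥ z) i ≠ 0 → 0 < (B *ᵥ z) i * (B *ᵥ x) i
    have hPx : P x := ⟨h0, fun i hi => mul_self_pos.2 hi⟩
    obtain ⟨z, hz, hzmin⟩ : ∃ z, P z ∧ ∀ z', P z' →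
        (univ.filter fun i => (B *ᵥ z) i ≠ 0).card ≤
          (univ.filter fun i => (B *ᵥ z') i ≠ 0).card := by
      have hne : {z | P z}.Nonempty := ⟨x, hPx⟩
      let F : (Fin D → ℝ) → ℕ := fun z => (univ.filter fun i => (B *ᵥ z) i ≠ 0).card
      refine ⟨Function.argminOn F {z | P z} hne, Function.argminOn_mem F _ hne, fun z' hz' => ?_⟩
      exact Function.argminOn_le F {z | P z} hz'
    -- `z` has minimal support in the whole column space
    have hmin : ∀ y, (∀ i, (B *ᵥ z) i = 0 → (B *ᵥ y) i = 0) →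
        (∃ i, (B *ᵥ z) i ≠ 0 ∧ (B *ᵥ y) i = 0) → B *ᵥ y = 0 := by
      intro y hy1 hy2
      by_contra hy0
      -- choose the sign of `y`
      obtain ⟨y', hy'1, hy'2, j, hj⟩ : ∃ y' : Fin D → ℝ,
          (∀ i, (B *ᵥ z) i = 0 → (B *ᵥ y') i = 0) ∧
          (∃ i, (B *ᵥ z) i ≠ 0 ∧ (B *ᵥ y') i = 0) ∧
          ∃ j, 0 < (B *ᵥ z) j * (B *ᵥ y') j := by
        obtain ⟨j, hj⟩ : ∃ j, (B *ᵥ y) j ≠ 0 := by
          by_contra h
          push Not at h
          exact hy0 (funext h)
        have hzj : (B *ᵥ z) j ≠ 0 := fun h => hj (hy1 j h)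
        rcases lt_or_gt_of_ne (mul_ne_zero hzj hj) with h | h
        · refine ⟨-y, fun i hi => ?_, ?_, j, ?_⟩
          · rw [mulVec_neg, Pi.neg_apply, hy1 i hi, neg_zero]
          · obtain ⟨i, hi1, hi2⟩ := hy2
            exact ⟨i, hi1, by rw [mulVec_neg, Pi.neg_apply, hi2, neg_zero]⟩
          · rw [mulVec_neg, Pi.neg_apply]
            linarith
        · exact ⟨y, hy1, hy2, j, h⟩
      -- the largest multiple that can be subtracted
      let J : Finset ι := univ.filter fun i => 0 < (B *ᵥ z) i * (B *ᵥ y') i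
      have hJ : J.Nonempty := ⟨j, by simp [J, hj]⟩
      obtain ⟨i₁, hi₁, hi₁min⟩ := J.exists_min_image (fun i => (B *ᵥ z) i / (B *ᵥ y') i) hJ
      have hi₁' : 0 < (B *ᵥ z) i₁ * (B *ᵥ y') i₁ := (mem_filter.1 hi₁).2
      have hy'i₁ : (B *ᵥ y') i₁ ≠ 0 := fun h => by rw [h, mul_zero] at hi₁'; exact lt_irrefl _ hi₁'
      have hzi₁ : (B *ᵥ z) i₁ ≠ 0 := fun h => by rw [h, zero_mul] at hi₁'; exact lt_irrefl _ hi₁'
      set t : ℝ := (B *ᵥ z) i₁ / (B *ᵥ y') i₁ with ht
      have htpos : 0 < t := by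
        rw [ht]
        rw [div_eq_mul_inv]
        have : (B *ᵥ z) i₁ * ((B *ᵥ y') i₁)⁻¹ =
            ((B *ᵥ z) i₁ * (B *ᵥ y') i₁) / ((B *ᵥ y') i₁) ^ 2 := by field_simp
        rw [this]
        positivity
      have hval : ∀ i, (B *ᵥ (z - t • y')) i = (B *ᵥ z) i - t * (B *ᵥ y') i := by
        intro i
        rw [mulVec_sub, mulVec_smul, Pi.sub_apply, Pi.smul_apply, smul_eq_mul]
      have hzero : (B *ᵥ (z - t • y')) i₁ = 0 := by
        rw [hval, ht]
        field_simp
        ring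
      -- conformality
      have hconf : ∀ i, (B *ᵥ (z - t • y')) i ≠ 0 →
          0 < (B *ᵥ (z - t • y')) i * (B *ᵥ z) i := by
        intro i hi
        have hzi : (B *ᵥ z) i ≠ 0 := by
          intro h
          apply hi
          rw [hval, h, hy'1 i h]
          ring
        rw [hval] at hi ⊢
        rcases lt_or_ge 0 ((B *ᵥ z) i * (B *ᵥ y') i) with h | h
        · have h1 : t ≤ (B *ᵥ z) i / (B *ᵥ y') i := hi₁min i (by simp [J, h])
          have hyi : (B *ᵥ y') i ≠ 0 := fun h' => by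
            rw [h', mul_zero] at h; exact lt_irrefl _ h
          have h2 : t * ((B *ᵥ z) i * (B *ᵥ y') i) ≤
              (B *ᵥ z) i / (B *ᵥ y') i * ((B *ᵥ z) i * (B *ᵥ y') i) :=
            mul_le_mul_of_nonneg_right h1 h.le
          have h3 : (B *ᵥ z) i / (B *ᵥ y') i * ((B *ᵥ z) i * (B *ᵥ y') i) = (B *ᵥ z) i ^ 2 := by
            field_simp
          have h4 : 0 ≤ ((B *ᵥ z) i - t * (B *ᵥ y') i) * (B *ᵥ z) i := by
            rw [h3] at h2
            nlinarith
          exact lt_of_le_of_ne h4 (Ne.symm (mul_ne_zero hi hzi))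
        · have h5 : 0 < (B *ᵥ z) i ^ 2 := by positivity
          have h6 : t * ((B *ᵥ z) i * (B *ᵥ y') i) ≤ 0 :=
            mul_nonpos_of_nonneg_of_nonpos htpos.le h
          nlinarith
      have hP' : P (z - t • y') := by
        refine ⟨?_, fun i hi => ?_⟩
        · obtain ⟨i, hi1, hi2⟩ := hy'2
          intro h
          have := congrFun h i
          rw [hval, hi2, mul_zero, sub_zero] at this
          exact hi1 this
        · have h1 := hconf i hi
          have hzi : (B *ᵥ z) i ≠ 0 := fun h => by rw [h, mul_zero] at h1; exact lt_irrefl _ h1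
          have h2 := hz.2 i hzi
          have h3 : 0 < ((B *ᵥ (z - t • y')) i * (B *ᵥ z) i) * ((B *ᵥ z) i * (B *ᵥ x) i) :=
            mul_pos h1 h2
          have h4 : ((B *ᵥ (z - t • y')) i * (B *ᵥ z) i) * ((B *ᵥ z) i * (B *ᵥ x) i) =
              (B *ᵥ z) i ^ 2 * ((B *ᵥ (z - t • y')) i * (B *ᵥ x) i) := by ring
          rw [h4] at h3
          have h5 : 0 < (B *ᵥ z) i ^ 2 := by positivity
          exact (mul_pos_iff_of_pos_left h5).1 h3
      have hlt : (univ.filter fun i => (B *ᵥ (z - t • y')) i ≠ 0).card <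
          (univ.filter fun i => (B *ᵥ z) i ≠ 0).card := by
        apply card_lt_card
        rw [ssubset_iff_of_subset]
        · exact ⟨i₁, by simp [hzi₁], by simp [hzero]⟩
        · intro i hi
          rw [mem_filter] at hi ⊢
          refine ⟨mem_univ i, fun h => ?_⟩
          have := hconf i hi.2
          rw [h, mul_zero] at this
          exact lt_irrefl _ this
      exact absurd (hzmin _ hP') (not_le.2 hlt)
    -- the nonzero entries of `B z` have the same absolute value
    obtain ⟨j, hj⟩ : ∃ j, (B *ᵥ z) j ≠ 0 := by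
      by_contra h
      push Not at h
      exact hz.1 (funext h)
    set c : ℝ := |(B *ᵥ z) j| with hc
    have hcpos : 0 < c := abs_pos.2 hj
    have habs : ∀ i, (B *ᵥ z) i ≠ 0 → |(B *ᵥ z) i| = c := fun i hi =>
      abs_eq_of_int hi hj (elementary B hB z hmin i j hj) (elementary B hB z hmin j i hi)
    have hz' : ∀ i, (B *ᵥ (c⁻¹ • z)) i = c⁻¹ * (B *ᵥ z) i := by
      intro i
      rw [mulVec_smul, Pi.smul_apply, smul_eq_mul]
    have hz'1 : ∀ i, (B *ᵥ z) i ≠ 0 → |(B *ᵥ (c⁻¹ • z)) i| = 1 := by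
      intro i hi
      rw [hz', abs_mul, habs i hi, abs_of_pos (inv_pos.2 hcpos), inv_mul_cancel₀ hcpos.ne']
    have hz'0 : ∀ i, (B *ᵥ z) i = 0 → (B *ᵥ (c⁻¹ • z)) i = 0 := by
      intro i hi
      rw [hz', hi, mul_zero]
    let J : Finset ι := univ.filter fun i => (B *ᵥ z) i ≠ 0
    have hJ : J.Nonempty := ⟨j, by simp [J, hj]⟩
    obtain ⟨i₁, hi₁, hi₁min⟩ := J.exists_min_image (fun i => |(B *ᵥ x) i|) hJ
    have hzi₁ : (B *ᵥ z) i₁ ≠ 0 := (mem_filter.1 hi₁).2
    have hxi₁ : (B *ᵥ x) i₁ ≠ 0 := fun h => by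
      have := hz.2 i₁ hzi₁
      rw [h, mul_zero] at this
      exact lt_irrefl _ this
    set t : ℝ := |(B *ᵥ x) i₁| with ht
    have htpos : 0 < t := abs_pos.2 hxi₁
    have hval : ∀ i, (B *ᵥ (x - t • (c⁻¹ • z))) i = (B *ᵥ x) i - t * (B *ᵥ (c⁻¹ • z)) i := by
      intro i
      rw [mulVec_sub, mulVec_smul B t, Pi.sub_apply, Pi.smul_apply, smul_eq_mul]
    have hsplit : ∀ i, |(B *ᵥ (x - t • (c⁻¹ • z))) i| =
        |(B *ᵥ x) i| - t * |(B *ᵥ (c⁻¹ • z)) i| := by
      intro i
      rw [hval]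
      by_cases hi : (B *ᵥ z) i = 0
      · rw [hz'0 i hi]; simp
      · have h1 : t ≤ |(B *ᵥ x) i| := hi₁min i (by simp [J, hi])
        have h2 := hz'1 i hi
        have h3 : 0 < (B *ᵥ (c⁻¹ • z)) i * (B *ᵥ x) i := by
          rw [hz', mul_assoc]
          exact mul_pos (inv_pos.2 hcpos) (hz.2 i hi)
        rw [h2]
        set a := (B *ᵥ x) i
        set b := (B *ᵥ (c⁻¹ • z)) i
        rcases eq_or_eq_neg_of_abs_eq h2 with hb | hb
        · rw [hb] at h3 ⊢
          have ha : 0 < a := by linarith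
          rw [abs_of_pos ha] at h1 ⊢
          rw [abs_of_nonneg (by linarith)]
        · rw [hb] at h3 ⊢
          have ha : a < 0 := by linarith
          rw [abs_of_neg ha] at h1 ⊢
          rw [abs_of_nonpos (by linarith)]
          ring
    have hfun : (fun i => |(B *ᵥ x) i|) = (fun i => |(B *ᵥ (x - t • (c⁻¹ • z))) i|) +
        fun i => t * |(B *ᵥ (c⁻¹ • z)) i| := by
      funext i
      rw [Pi.add_apply, hsplit]
      ring
    rw [hfun]
    refine add_mem (ih _ ?_) (AddSubmonoid.subset_closure ⟨t, htpos.le, c⁻¹ • z, fun i => ?_, rfl⟩)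
    · have hlt : (univ.filter fun i => (B *ᵥ (x - t • (c⁻¹ • z))) i ≠ 0).card <
          (univ.filter fun i => (B *ᵥ x) i ≠ 0).card := by
        apply card_lt_card
        rw [ssubset_iff_of_subset]
        · refine ⟨i₁, by simp [hxi₁], ?_⟩
          have h1 := hsplit i₁
          rw [hz'1 i₁ hzi₁, mul_one, ← ht, sub_self, abs_eq_zero] at h1
          simp [h1]
        · intro i hi
          rw [mem_filter] at hi ⊢
          refine ⟨mem_univ i, fun h => hi.2 ?_⟩
          have hzi : (B *ᵥ z) i = 0 := by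
            by_contra h'
            have := hz.2 i h'
            rw [h, mul_zero] at this
            exact lt_irrefl _ this
          rw [hval, h, hz'0 i hzi]
          ring
      omega
    · by_cases hi : (B *ᵥ z) i = 0
      · left
        rw [hz'0 i hi, abs_zero]
      · right
        exact hz'1 i hi

end Pool.Agent.Zono
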